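import Pool.Agent.R253.KF.Fin

/-!
# Hardy regularity of Bergman extremal functions below the dual exponent fails (Q1 of MP_5c226d_an)

For every `1 < p < 4/3`, with `q = p/(p-1)` and `q₁ = q/4` (so that `1 < q₁ < q`), there is a
nonzero `k ∈ A^q ∩ H^{q₁}` whose `A^p` extremal function is not in `H^{(p-1)q₁}`.
-/

set_option autoImplicit false

namespace Pool.Agent.Results.MP_5c226d_an.NotHardy

open Complex Metric Set Filter Topology MeasureTheory ComplexConjugate

/-- area measure on the unit disc, normalised to have total mass one -/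
noncomputable def σ : Measure ℂ := ENNReal.ofReal (1 / Real.pi) • volume.restrict (ball (0:ℂ) 1)

/-- the Bergman space `A^r`: `f` is analytic in the disc and `∫ |f|^r dσ < ∞` -/
def InBergman (r : ℝ) (f : ℂ → ℂ) : Prop :=
  DifferentiableOn ℂ f (ball 0 1) ∧ Integrable (fun z => ‖f z‖ ^ r) σ

/-- the norm of `A^r` -/
noncomputable def bergmanNorm (r : ℝ) (f : ℂ → ℂ) : ℝ := (∫ z, ‖f z‖ ^ r ∂σ) ^ (1 / r)

/-- the functional `φ(f) = ∫ f k̄ dσ` with kernel `k` -/
noncomputable def functional (k f : ℂ → ℂ) : ℂ := ∫ z, f z * conj (k z) ∂σ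

/-- `F` is the extremal function for `k`: `F ∈ A^p` has norm one and maximises `Re φ` over all
`g ∈ A^p` of norm one -/
def IsExtremal (p : ℝ) (k F : ℂ → ℂ) : Prop :=
  InBergman p F ∧ bergmanNorm p F = 1 ∧
    ∀ g, InBergman p g → bergmanNorm p g = 1 → (functional k g).re ≤ (functional k F).re

/-- the mean `M_s(f,r)` -/
noncomputable def hardyMean (s : ℝ) (f : ℂ → ℂ) (r : ℝ) : ℝ :=
  ((2 * Real.pi)⁻¹ * ∫ θ in (0:ℝ)..(2 * Real.pi), ‖f (r * exp (θ * I))‖ ^ s) ^ (1 / s)

/-- the Hardy space `H^s`: `f` is analytic in the disc and `sup_{0<r<1} M_s(f,r) < ∞` -/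
def InHardy (s : ℝ) (f : ℂ → ℂ) : Prop :=
  DifferentiableOn ℂ f (ball 0 1) ∧ ∃ C : ℝ, ∀ r ∈ Ioo (0:ℝ) 1, hardyMean s f r ≤ C

/-- **Negative answer to Q1.** For every `1 < p < 4/3`, with `q = p/(p-1)` and `q₁ = q/4`, one has
`1 < q₁ < q` and there is a nonzero kernel `k ∈ A^q ∩ H^{q₁}` whose extremal function `F` is not in
`H^{(p-1)q₁}`. -/
theorem result : ∀ p q q₁ : ℝ, 1 < p → p < 4 / 3 → q = p / (p - 1) → q₁ = q / 4 →
    1 < q₁ ∧ q₁ < q ∧ ∃ k F : ℂ → ℂ, InBergman q k ∧ (∃ z ∈ ball (0:ℂ) 1, k z ≠ 0) ∧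
      InHardy q₁ k ∧ IsExtremal p k F ∧ ¬ InHardy ((p - 1) * q₁) F := by
  intro p q r hp hp2 hq hr
  have hp0 : 0 < p := by linarith
  have hp1 : 0 < p - 1 := by linarith
  have hpq : p.HolderConjugate q := by
    rw [hq]; exact Real.HolderConjugate.conjExponent hp
  have hqpos : 0 < q := hpq.symm.pos
  have hq4 : 4 < q := by
    rw [hq, lt_div_iff₀ hp1]; linarith
  have hr1 : 1 < r := by rw [hr]; linarith
  have hrq : r < q := by rw [hr]; linarith
  refine ⟨hr1, hrq, ?_⟩
  set ν : ℝ := 2 / p - 1 with hν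
  have hνr : ν * r = r - 1 / 2 := by
    rw [hr, hq, hν]; field_simp; ring
  have hνq : (1 - ν) * q = 2 := by
    rw [hq, hν]; field_simp; ring
  obtain ⟨L, k, hL, hk, hLi, hki, ⟨B, hB⟩, hpair, hT⟩ :=
    R253.KF.limit_objects hpq hr1.le hνr hνq
  have hcm : ∀ r θ : ℝ, (r : ℂ) * exp (θ * I) = circleMap 0 r θ := by
    intro r θ; simp [circleMap]
  have hπ : 0 < 1 / Real.pi := by positivity
  have hσ : σ = R253.BE.am (1 / Real.pi) := rfl
  have hintσ : ∀ {E : Type} [NormedAddCommGroup E] {f : ℂ → E}, Integrable f σ ↔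
      IntegrableOn f (ball 0 1) := R253.BE.integrable_am hπ
  -- the extremal function before normalisation
  set F0 : ℂ → ℂ := fun z => exp (((2 / p : ℝ) : ℂ) * L z) with hF0
  have hF0d : DifferentiableOn ℂ F0 (ball 0 1) := (hL.const_mul _).cexp
  have nF0 : ∀ z, ‖F0 z‖ = Real.exp (2 / p * (L z).re) := by
    intro z
    simp only [hF0]
    rw [Complex.norm_exp, Complex.re_ofReal_mul]
  have pF0 : ∀ z, ‖F0 z‖ ^ p = ‖exp (L z)‖ ^ (2:ℝ) := by
    intro z
    rw [nF0, Complex.norm_exp, ← Real.exp_mul, ← Real.exp_mul]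
    congr 1; field_simp
  have nGH : ∀ z, ‖R253.KF.GH ν L z‖ = ‖F0 z‖ ^ (p - 1) := by
    intro z
    rw [R253.KF.GH_norm, nF0, ← Real.exp_mul]
    congr 1
    rw [hν]; field_simp; ring
  have eGH : ∀ z, R253.KF.GH ν L z * conj (F0 z) = ((‖F0 z‖ ^ p : ℝ) : ℂ) := by
    intro z
    unfold R253.KF.GH
    simp only [hF0]
    rw [pF0, Complex.norm_exp, ← Real.exp_mul, ← Complex.exp_conj, ← Complex.exp_conj,
      ← Complex.exp_add, ← Complex.exp_add, Complex.ofReal_exp]
    congr 1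
    rw [map_mul, map_mul, map_neg, Complex.conj_ofReal, Complex.conj_ofReal]
    have e2 : L z + conj (L z) = ((2 * (L z).re : ℝ) : ℂ) := Complex.add_conj (L z)
    have e3 : L z + -(ν:ℂ) * conj (L z) + ((2 / p : ℝ) : ℂ) * conj (L z) = L z + conj (L z) := by
      rw [hν]; push_cast; ring
    rw [e3, e2]
    push_cast; ring
  have iF0 : IntegrableOn (fun z => ‖F0 z‖ ^ p) (ball 0 1) := by
    simp only [pF0]; exact hLi
  set J : ℝ := ∫ z, ‖F0 z‖ ^ p ∂σ with hJ
  have hgood := R253.BE.good_am hπ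
  have hpq1 : (p - 1) * q = p := by rw [hq]; field_simp
  have hJ0 : 0 < J := by
    rw [hJ, integral_pos_iff_support_of_nonneg (fun z => by positivity) (hintσ.2 iF0)]
    have hsup : Function.support (fun z => ‖F0 z‖ ^ p) = univ := by
      rw [eq_univ_iff_forall]
      intro z
      rw [Function.mem_support]
      have : 0 < ‖F0 z‖ := by rw [nF0]; exact Real.exp_pos _
      positivity
    rw [hsup]
    unfold σ
    rw [Measure.smul_apply, Measure.restrict_apply_univ, smul_eq_mul]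
    apply ENNReal.mul_pos
    · exact R253.BE.ofReal_ne hπ
    · exact (measure_ball_pos _ _ one_pos).ne'
  set N : ℝ := J ^ (1 / p) with hN
  have hN0 : 0 < N := Real.rpow_pos_of_pos hJ0 _
  have hNp : N ^ p = J := by
    rw [hN, ← Real.rpow_mul hJ0.le, one_div_mul_cancel hp0.ne', Real.rpow_one]
  set F : ℂ → ℂ := fun z => ((N⁻¹ : ℝ) : ℂ) * F0 z with hF
  have hFd : DifferentiableOn ℂ F (ball 0 1) := hF0d.const_mul _
  have nF : ∀ z, ‖F z‖ = N⁻¹ * ‖F0 z‖ := by
    intro z
    simp only [hF]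
    rw [norm_mul, Complex.norm_real, Real.norm_eq_abs, abs_of_pos (inv_pos.2 hN0)]
  have pF : ∀ z, ‖F z‖ ^ p = J⁻¹ * ‖F0 z‖ ^ p := by
    intro z
    rw [nF, Real.mul_rpow (inv_pos.2 hN0).le (norm_nonneg _), Real.inv_rpow hN0.le, hNp]
  have iF : InBergman p F := by
    refine ⟨hFd, ?_⟩
    simp only [pF]
    exact (hintσ.2 iF0).const_mul _
  have normF : bergmanNorm p F = 1 := by
    unfold bergmanNorm
    simp only [pF]
    rw [integral_const_mul, ← hJ, inv_mul_cancel₀ hJ0.ne', Real.one_rpow]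
  -- the functional in terms of `F0`
  have hfun : ∀ g : ℂ → ℂ, InBergman p g →
      functional k g = conj (∫ z, R253.KF.GH ν L z * conj (g z) ∂σ) := by
    intro g hg
    unfold functional
    rw [hσ, R253.BE.int_am hπ, R253.BE.int_am hπ, map_mul, ← hpair g hg.1 (hintσ.1 hg.2),
      ← integral_conj]
    congr 1
    · simp
    · apply integral_congr_ae
      apply Eventually.of_forall
      intro z
      simp only [map_mul, Complex.conj_conj]
      ring
  have hfunF : functional k F = ((N ^ (p - 1) : ℝ) : ℂ) := by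
    rw [hfun F iF]
    have e1 : ∀ z, R253.KF.GH ν L z * conj (F z) = ((N⁻¹ * ‖F0 z‖ ^ p : ℝ) : ℂ) := by
      intro z
      simp only [hF]
      rw [map_mul, Complex.conj_ofReal, mul_left_comm, eGH]
      push_cast; ring
    simp only [e1]
    rw [integral_complex_ofReal, integral_const_mul, ← hJ, Complex.conj_ofReal, ← hNp]
    congr 1
    rw [Real.rpow_sub_one hN0.ne']
    field_simp
  have hfunle : ∀ g : ℂ → ℂ, InBergman p g → bergmanNorm p g = 1 →
      (functional k g).re ≤ N ^ (p - 1) := by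
    intro g hg hg1
    have hNN : 0 < N ^ (p - 1) := Real.rpow_pos_of_pos hN0 _
    have ig : Integrable (fun z => ‖g z‖ ^ p) σ := hg.2
    have ig0 : 0 ≤ ∫ z, ‖g z‖ ^ p ∂σ := integral_nonneg fun z => by positivity
    have ig1 : ∫ z, ‖g z‖ ^ p ∂σ = 1 := by
      unfold bergmanNorm at hg1
      have h2 : ((∫ z, ‖g z‖ ^ p ∂σ) ^ (1 / p)) ^ p = 1 := by rw [hg1, Real.one_rpow]
      rwa [← Real.rpow_mul ig0, one_div_mul_cancel hp0.ne', Real.rpow_one] at h2
    rw [hfun g hg]
    refine (Complex.re_le_norm _).trans ?_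
    rw [RCLike.norm_conj]
    refine (norm_integral_le_integral_norm _).trans ?_
    have hpt : ∀ z, ‖R253.KF.GH ν L z * conj (g z)‖ ≤
        N ^ (p - 1) * ((J⁻¹ * ‖F0 z‖ ^ p) / q + ‖g z‖ ^ p / p) := by
      intro z
      rw [norm_mul, RCLike.norm_conj, nGH]
      have h3 := Real.young_inequality_of_nonneg
        (show 0 ≤ (N ^ (p - 1))⁻¹ * ‖F0 z‖ ^ (p - 1) by positivity) (norm_nonneg (g z)) hpq.symm
      have h4 : ((N ^ (p - 1))⁻¹ * ‖F0 z‖ ^ (p - 1)) ^ q = J⁻¹ * ‖F0 z‖ ^ p := by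
        rw [Real.mul_rpow (by positivity) (by positivity), Real.inv_rpow hNN.le,
          ← Real.rpow_mul hN0.le, ← Real.rpow_mul (norm_nonneg _), hpq1, hNp]
      rw [h4] at h3
      have h5 := mul_le_mul_of_nonneg_left h3 hNN.le
      refine le_trans (le_of_eq ?_) h5
      field_simp
    have hri : Integrable (fun z => N ^ (p - 1) * ((J⁻¹ * ‖F0 z‖ ^ p) / q + ‖g z‖ ^ p / p)) σ :=
      ((((hintσ.2 iF0).const_mul _).div_const _).add (ig.div_const _)).const_mul _
    have hle := integral_mono_of_nonneg (Eventually.of_forall fun z => norm_nonneg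
      (R253.KF.GH ν L z * conj (g z))) hri (Eventually.of_forall hpt)
    refine hle.trans (le_of_eq ?_)
    rw [integral_const_mul, integral_add (((hintσ.2 iF0).const_mul _).div_const _) (ig.div_const _),
      integral_div, integral_div, integral_const_mul, ← hJ, inv_mul_cancel₀ hJ0.ne', ig1]
    have h6 : 1 / q + 1 / p = 1 := by
      have := hpq.inv_add_inv_eq_one
      rw [one_div, one_div, add_comm]; exact this
    rw [h6, mul_one]
  refine ⟨k, F, ⟨hk, hintσ.2 hki⟩, ?_, ⟨hk, ((2 * Real.pi)⁻¹ * |B|) ^ (1 / r), fun s hs => ?_⟩,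
    ⟨iF, normF, fun g hg hg1 => ?_⟩, ?_⟩
  · by_contra hcon
    push_neg at hcon
    have h0 : functional k F = 0 := by
      unfold functional
      have : (fun z => F z * conj (k z)) =ᵐ[σ] fun _ => 0 := by
        filter_upwards [hgood.ae] with z hz
        rw [hcon z hz, map_zero, mul_zero]
      rw [integral_congr_ae this, integral_zero]
    rw [hfunF] at h0
    have : 0 < N ^ (p - 1) := Real.rpow_pos_of_pos hN0 _
    exact this.ne' (by exact_mod_cast h0)
  · unfold hardyMean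
    simp only [hcm]
    have hJ0 : 0 ≤ ∫ θ in (0:ℝ)..(2 * Real.pi), ‖k (circleMap 0 s θ)‖ ^ r :=
      intervalIntegral.integral_nonneg (by positivity) fun θ _ => by positivity
    apply Real.rpow_le_rpow (by positivity) _ (by positivity)
    apply mul_le_mul_of_nonneg_left _ (by positivity)
    exact (hB s hs.1 hs.2).trans (le_abs_self B)
  · rw [hfunF, Complex.ofReal_re]
    exact hfunle g hg hg1
  · rintro ⟨_, C0, hC0⟩
    set e : ℝ := (p - 1) * r with he
    have he' : e = p / 4 := by rw [he, hr, hq]; field_simp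
    have he0 : 0 < e := by rw [he']; positivity
    have hc : ∀ z, ‖F z‖ ^ e = N⁻¹ ^ e * ‖exp (L z)‖ ^ (1 / 2 : ℝ) := by
      intro z
      rw [nF, Real.mul_rpow (inv_pos.2 hN0).le (norm_nonneg _), nF0, Complex.norm_exp,
        ← Real.exp_mul, ← Real.exp_mul, he']
      congr 2
      field_simp
      ring
    have hNe : 0 < N⁻¹ ^ e := Real.rpow_pos_of_pos (inv_pos.2 hN0) _
    obtain ⟨s, hs0, hs1, hsT⟩ := hT ((N⁻¹ ^ e)⁻¹ * (2 * Real.pi * |C0| ^ e + 1))
    have h := hC0 s ⟨hs0, hs1⟩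
    unfold hardyMean at h
    simp only [hcm] at h
    set J1 : ℝ := ∫ θ in (0:ℝ)..(2 * Real.pi), ‖F (circleMap 0 s θ)‖ ^ e with hJ1
    have hJ10 : 0 ≤ J1 := intervalIntegral.integral_nonneg (by positivity) fun θ _ => by positivity
    have hJ11 : 0 ≤ (2 * Real.pi)⁻¹ * J1 := by positivity
    have h2 := Real.rpow_le_rpow (by positivity) (h.trans (le_abs_self C0)) he0.le
    rw [← Real.rpow_mul hJ11, one_div_mul_cancel he0.ne', Real.rpow_one, inv_mul_le_iff₀
      Real.two_pi_pos] at h2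
    have h3 : J1 = N⁻¹ ^ e * ∫ θ in (0:ℝ)..(2 * Real.pi), ‖exp (L (circleMap 0 s θ))‖ ^ (1 / 2 : ℝ) := by
      rw [hJ1, ← intervalIntegral.integral_const_mul]
      apply intervalIntegral.integral_congr
      intro θ _
      exact hc _
    have h4 := mul_le_mul_of_nonneg_left hsT hNe.le
    rw [← mul_assoc, mul_inv_cancel₀ hNe.ne', one_mul, ← h3] at h4
    linarith

end Pool.Agent.Results.MP_5c226d_an.NotHardy
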